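import Pool.Agent.R972.OP.Stm4
import Pool.Agent.R874.OP.Upb

/-!
# OP3-UPH: asymptotics of the sums with the rates `ch`
-/

set_option autoImplicit false

namespace Pool.Agent.R650.OP

open MeasureTheory Set Filter Topology Pool.Agent.R972.OP Pool.Agent.R874.OP

theorem ch_nonneg (N k : ℕ) : 0 ≤ ch N k := by
  unfold ch
  positivity

/-- the rate, as a function of the position -/
theorem ch_eq {N : ℕ} (hN : 0 < N) (k : ℕ) : ch N k / (N : ℝ) ^ 2 =
    4 * ((((k : ℝ) + 1) / N) * (1 - ((k : ℝ) + 1) / N)) ^ 2 := by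
  have hN' : (0 : ℝ) < N := by exact_mod_cast hN
  unfold ch
  field_simp
  ring

theorem ch_le {N k : ℕ} (hN : 0 < N) (hk : k + 1 ≤ N) : ch N k / (N : ℝ) ^ 2 ≤ 1 / 4 := by
  have hN' : (0 : ℝ) < N := by exact_mod_cast hN
  rw [ch_eq hN]
  set x := ((k : ℝ) + 1) / N with hx
  have h0 : 0 ≤ x := by positivity
  have h1 : x ≤ 1 := by
    rw [hx, div_le_one hN']
    exact_mod_cast hk
  have h2 : 0 ≤ x * (1 - x) := mul_nonneg h0 (by linarith)
  have h3 : x * (1 - x) ≤ 1 / 4 := by nlinarith [sq_nonneg (x - 1 / 2)]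
  nlinarith

/-- upper bound for the rate of the step up -/
theorem ch_up {N k : ℕ} (hN : 0 < N) (hk : k + 1 ≤ N) : ch N k / (N : ℝ) ^ 2 ≤
    4 * ((k : ℝ) / N) ^ 2 * (1 - (k : ℝ) / N) ^ 2 + 6 * (1 / (N : ℝ)) := by
  have hN' : (0 : ℝ) < N := by exact_mod_cast hN
  have hN1 : (1 : ℝ) ≤ N := by exact_mod_cast hN
  rw [ch_eq hN]
  have e : ((k : ℝ) + 1) / N = (k : ℝ) / N + 1 / N := by ring
  have hk' : (k : ℝ) / N + 1 / N ≤ 1 := by
    rw [← e, div_le_one hN']
    exact_mod_cast hk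
  rw [e]
  have hx0 : 0 ≤ (k : ℝ) / N := by positivity
  have hh0 : 0 < 1 / (N : ℝ) := by positivity
  have hh1 : 1 / (N : ℝ) ≤ 1 := by
    rw [div_le_one hN']
    exact hN1
  generalize (k : ℝ) / N = x at *
  generalize 1 / (N : ℝ) = h at *
  have h1 : (x + h) * (1 - (x + h)) ≤ x * (1 - x) + h := by nlinarith
  have h2 : 0 ≤ (x + h) * (1 - (x + h)) := mul_nonneg (by linarith) (by linarith)
  have h3 : x * (1 - x) ≤ 1 / 4 := by nlinarith [sq_nonneg (x - 1 / 2)]
  have h4 : 0 ≤ x * (1 - x) := mul_nonneg hx0 (by linarith)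
  have h5 : ((x + h) * (1 - (x + h))) ^ 2 ≤ (x * (1 - x) + h) ^ 2 := pow_le_pow_left₀ h2 h1 2
  nlinarith [mul_le_mul_of_nonneg_left h3 hh0.le, mul_le_mul_of_nonneg_left hh1 hh0.le]

/-- the rate of the step down -/
theorem ch_down {N k : ℕ} (hN : 0 < N) (hk : 0 < k) : ch N (k - 1) / (N : ℝ) ^ 2 =
    4 * ((k : ℝ) / N) ^ 2 * (1 - (k : ℝ) / N) ^ 2 := by
  rw [ch_eq hN]
  have : (((k - 1 : ℕ) : ℝ) + 1) = k := by
    rw [Nat.cast_sub (by omega)]
    push_cast
    ring
  rw [this]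
  ring

variable {n : ℕ} {f : (Fin n → ℝ) → ℝ}

/-- the left hand side -/
noncomputable def lhsh (f : (Fin n → ℝ) → ℝ) (N : ℕ) (g : Fin n → ℕ) : ℝ :=
  ∑ a, (if g a + 1 < N then
      ch N (g a) * (f (lp N (Function.update g a (g a + 1))) - f (lp N g)) ^ 2 else 0) +
    ∑ a, (if 0 < g a then
      ch N (g a - 1) * (f (lp N (Function.update g a (g a - 1))) - f (lp N g)) ^ 2 else 0)

theorem evh (hf : ContDiff ℝ 1 f) (ε : ℝ) (hε : 0 < ε) : ∃ N0 : ℕ, ∀ N : ℕ, N0 ≤ N → 0 < N →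
    ∀ g : Fin n → ℕ, (∀ a, g a < N) → lhsh f N g ≤ 2 * GH f (lp N g) + ε := by
  have hK : IsCompact (Icc (0 : Fin n → ℝ) 1) := isCompact_Icc
  set Q : (Fin n → ℝ) → (Fin n → ℝ) := fun x a => pd f a x ^ 2 with hQ
  have hQc : Continuous Q := continuous_pi fun a => (pd_cont hf a).pow 2
  obtain ⟨B, hB⟩ := hK.exists_bound_of_continuousOn hQc.continuousOn
  have hB' : ∀ x ∈ Icc (0 : Fin n → ℝ) 1, ∀ a, pd f a x ^ 2 ≤ |B| := by
    intro x hx a
    have h1 := (norm_le_pi_norm (Q x) a).trans (hB x hx)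
    rw [Real.norm_eq_abs, hQ] at h1
    exact (le_abs_self _).trans (h1.trans (le_abs_self _))
  have huc := hK.uniformContinuousOn_of_continuous hQc.continuousOn
  rw [Metric.uniformContinuousOn_iff] at huc
  have hn1 : (0 : ℝ) < (n : ℝ) + 1 := by positivity
  obtain ⟨δ, hδ, huc⟩ := huc (ε / ((n : ℝ) + 1)) (by positivity)
  have hB0 : 0 ≤ |B| := abs_nonneg B
  set η := ε / ((n : ℝ) + 1) with hη
  have hη0 : 0 < η := by positivity
  have hlim2 : ∀ᶠ N : ℕ in atTop, 1 / (N : ℝ) < min δ (ε / (24 * ((n : ℝ) + 1) * (|B| + η))) := by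
    have h1 : Tendsto (fun N : ℕ => 1 / (N : ℝ)) atTop (𝓝 0) := tendsto_one_div_atTop_nhds_zero_nat
    exact h1.eventually_lt_const (lt_min hδ (by positivity))
  obtain ⟨N0, hN0⟩ := eventually_atTop.1 hlim2
  refine ⟨N0, fun N hN hNp g hg => ?_⟩
  have hd := hN0 N hN
  have hd1 : 1 / (N : ℝ) < δ := hd.trans_le (min_le_left _ _)
  have hd2 : 1 / (N : ℝ) < ε / (24 * ((n : ℝ) + 1) * (|B| + η)) := hd.trans_le (min_le_right _ _)
  have hN' : (0 : ℝ) < N := by exact_mod_cast hNp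
  have hx := lp_mem hNp fun a => (hg a).le
  set h := 1 / (N : ℝ) with hh
  have hh0 : 0 < h := by positivity
  have hterm : ∀ (a : Fin n) (t r : ℝ), |t| = h → 0 ≤ r →
      r / (N : ℝ) ^ 2 ≤ 4 * (lp N g a) ^ 2 * (1 - lp N g a) ^ 2 + 6 * h →
      lp N g + t • Pi.single a (1 : ℝ) ∈ Icc (0 : Fin n → ℝ) 1 →
      r * (f (lp N g + t • Pi.single a (1 : ℝ)) - f (lp N g)) ^ 2 ≤
        4 * (lp N g a) ^ 2 * (1 - lp N g a) ^ 2 * pd f a (lp N g) ^ 2 +
          (η / 4 + 6 * h * (|B| + η)) := by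
    intro a t r ht hr0 hr hmem
    obtain ⟨ξ, hξ, hdist, he⟩ := mvt hf a t hx hmem
    rw [he, mul_pow, ← sq_abs t, ht]
    have h1 := huc ξ hξ (lp N g) hx (by rw [ht] at hdist; exact lt_of_le_of_lt hdist hd1)
    have h2 := lt_of_le_of_lt (dist_le_pi_dist (Q ξ) (Q (lp N g)) a) h1
    rw [Real.dist_eq, hQ] at h2
    have h3 := (abs_lt.1 h2).2
    simp only at h3
    have h4 : r * (h ^ 2 * pd f a ξ ^ 2) = r / (N : ℝ) ^ 2 * pd f a ξ ^ 2 := by
      rw [hh]
      field_simp
    rw [h4]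
    have h5 : pd f a (lp N g) ^ 2 ≤ |B| := hB' _ hx a
    have h6 : 0 ≤ pd f a (lp N g) ^ 2 := sq_nonneg _
    have h7 : 0 ≤ pd f a ξ ^ 2 := sq_nonneg _
    have h8 : 4 * (lp N g a) ^ 2 * (1 - lp N g a) ^ 2 ≤ 1 / 4 := by
      have h9 : 0 ≤ lp N g a := hx.1 a
      have h10 : lp N g a ≤ 1 := hx.2 a
      have h11 : 0 ≤ lp N g a * (1 - lp N g a) := mul_nonneg h9 (by linarith)
      have h12 : lp N g a * (1 - lp N g a) ≤ 1 / 4 := by nlinarith [sq_nonneg (lp N g a - 1 / 2)]
      have h13 : 4 * (lp N g a) ^ 2 * (1 - lp N g a) ^ 2 = 4 * (lp N g a * (1 - lp N g a)) ^ 2 := by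
        ring
      rw [h13]
      nlinarith
    have h14 : 0 ≤ 4 * (lp N g a) ^ 2 * (1 - lp N g a) ^ 2 := by positivity
    have h3' : pd f a ξ ^ 2 ≤ pd f a (lp N g) ^ 2 + η := by linarith
    clear_value η h
    generalize 4 * (lp N g a) ^ 2 * (1 - lp N g a) ^ 2 = Φ at *
    generalize pd f a (lp N g) ^ 2 = p at *
    generalize pd f a ξ ^ 2 = q at *
    generalize r / (N : ℝ) ^ 2 = s at *
    have h15 : s * q ≤ (Φ + 6 * h) * (p + η) :=
      mul_le_mul hr h3' h7 (by positivity)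
    have h16 : Φ * η ≤ 1 / 4 * η := mul_le_mul_of_nonneg_right h8 hη0.le
    have h17 : 6 * h * (p + η) ≤ 6 * h * (|B| + η) :=
      mul_le_mul_of_nonneg_left (by linarith) (by positivity)
    nlinarith
  have hnn : ∀ a : Fin n, 0 ≤ 4 * (lp N g a) ^ 2 * (1 - lp N g a) ^ 2 * pd f a (lp N g) ^ 2 +
          (η / 4 + 6 * h * (|B| + η)) := fun a => by positivity
  have hS : lhsh f N g ≤ ∑ a : Fin n, (4 * (lp N g a) ^ 2 * (1 - lp N g a) ^ 2 *
      pd f a (lp N g) ^ 2 + (η / 4 + 6 * h * (|B| + η))) +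
      ∑ a : Fin n, (4 * (lp N g a) ^ 2 * (1 - lp N g a) ^ 2 *
      pd f a (lp N g) ^ 2 + (η / 4 + 6 * h * (|B| + η))) := by
    unfold lhsh
    apply add_le_add
    · apply Finset.sum_le_sum
      intro a _
      split_ifs with hlt
      · rw [lp_up]
        apply hterm a _ _ _ (ch_nonneg _ _)
        · exact ch_up hNp hlt.le
        · rw [← lp_up]
          apply lp_mem hNp
          intro b
          by_cases hb : b = a
          · subst hb
            rw [Function.update_self]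
            exact hlt.le
          · rw [Function.update_of_ne hb]
            exact (hg b).le
        · rw [abs_of_pos (by positivity)]
      · exact hnn a
    · apply Finset.sum_le_sum
      intro a _
      split_ifs with hlt
      · rw [lp_down g a hlt]
        apply hterm a _ _ _ (ch_nonneg _ _)
        · rw [ch_down hNp hlt]
          have : 0 ≤ 6 * h := by positivity
          exact le_add_of_nonneg_right this
        · rw [← lp_down g a hlt]
          apply lp_mem hNp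
          intro b
          by_cases hb : b = a
          · subst hb
            rw [Function.update_self]
            have := hg b
            omega
          · rw [Function.update_of_ne hb]
            exact (hg b).le
        · rw [abs_neg, abs_of_pos (by positivity)]
      · exact hnn a
  refine hS.trans ?_
  rw [Finset.sum_add_distrib, Finset.sum_const, Finset.card_univ,
    Fintype.card_fin, nsmul_eq_mul]
  have hGH : GH f (lp N g) = ∑ a : Fin n, 4 * (lp N g a) ^ 2 * (1 - lp N g a) ^ 2 *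
      pd f a (lp N g) ^ 2 := rfl
  rw [← hGH]
  have h1 : (n : ℝ) * η ≤ ε := by
    rw [hη, mul_div_assoc', div_le_iff₀ hn1]
    nlinarith
  have h2 : 24 * ((n : ℝ) + 1) * (|B| + η) * h ≤ ε := by
    rw [lt_div_iff₀ (by positivity)] at hd2
    linarith
  have h3 : (n : ℝ) * (6 * h * (|B| + η)) ≤ ε / 4 := by
    have h4 : (n : ℝ) * (6 * h * (|B| + η)) ≤ ((n : ℝ) + 1) * (6 * h * (|B| + η)) :=
      mul_le_mul_of_nonneg_right (by linarith) (by positivity)
    nlinarith
  have h5 : (n : ℝ) * (η / 4 + 6 * h * (|B| + η)) = (n : ℝ) * η / 4 +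
    (n : ℝ) * (6 * h * (|B| + η)) := by ring
  rw [h5]
  linarith

open Classical in
theorem uph : S_UPH := by
  intro n f hf
  -- Lipschitz bound
  have hK : IsCompact (Icc (0 : Fin n → ℝ) 1) := isCompact_Icc
  obtain ⟨L, hL⟩ := hK.exists_bound_of_continuousOn (hf.continuous_fderiv one_ne_zero).continuousOn
  let S : ℕ → Finset (Fin n → ℕ) := fun N => Fintype.piFinset fun _ => Finset.range N
  let D : ℕ → (Fin n → ℕ) → ℝ := fun N g => max 0 (lhsh f N g - 2 * GH f (lp N g))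
  let err : ℕ → ℝ := fun N => if h : (S N).Nonempty ∧ 0 < N then (S N).sup' h.1 (D N) else 0
  have hmem : ∀ (N : ℕ) (g : Fin n → ℕ), (∀ a, g a < N) → g ∈ S N := by
    intro N g hg
    simp only [S, Fintype.mem_piFinset, Finset.mem_range]
    exact hg
  refine ⟨err, L ^ 2 / 4, ?_, by positivity, fun N g hN hg hinj => ⟨?_, ?_⟩⟩
  · rw [Metric.tendsto_atTop]
    intro ε hε
    obtain ⟨N0, hN0⟩ := evh hf (ε / 2) (by positivity)
    refine ⟨N0, fun N hN => ?_⟩
    rw [Real.dist_eq, sub_zero]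
    by_cases h : (S N).Nonempty ∧ 0 < N
    · simp only [err, dif_pos h]
      have h1 : (S N).sup' h.1 (D N) ≤ ε / 2 := by
        apply Finset.sup'_le
        intro g hg
        simp only [S, Fintype.mem_piFinset, Finset.mem_range] at hg
        have := hN0 N hN h.2 g hg
        exact max_le (by positivity) (by linarith)
      have h2 : 0 ≤ (S N).sup' h.1 (D N) := by
        obtain ⟨g, hg⟩ := h.1
        exact (le_max_left _ _).trans (Finset.le_sup' (D N) hg)
      rw [abs_of_nonneg h2]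
      linarith
    · simp only [err, dif_neg h, abs_zero]
      exact hε
  · have h1 : (S N).Nonempty ∧ 0 < N := ⟨⟨g, hmem N g hg⟩, hN⟩
    have h2 : D N g ≤ err N := by
      simp only [err, dif_pos h1]
      exact Finset.le_sup' (D N) (hmem N g hg)
    have h3 : lhsh f N g - 2 * GH f (lp N g) ≤ D N g := le_max_right _ _
    have h4 : lhsh f N g ≤ 2 * GH f (lp N g) + err N := by linarith
    exact h4
  · intro a b hab
    have hN' : (0 : ℝ) < N := by exact_mod_cast hN
    have hmv : ∀ e, mv (g a) (g a + 1) g e < N := by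
      intro e
      have h1 := hg a
      have h2 := hg b
      have h3 := hg e
      unfold mv
      rw [Equiv.swap_apply_def]
      split_ifs <;> omega
    have hx := lp_mem hN fun a => (hg a).le
    have hx' := lp_mem hN fun e => (hmv e).le
    have h1 := (convex_Icc (0 : Fin n → ℝ) 1).norm_image_sub_le_of_norm_fderiv_le
      (𝕜 := ℝ) (f := f) (C := L) (fun x _ => (hf.differentiable one_ne_zero x))
      (fun x hx => hL x hx) hx hx'
    have hL0 : 0 ≤ L := (norm_nonneg _).trans (hL _ hx)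
    have h2 : ‖lp N (mv (g a) (g a + 1) g) - lp N g‖ ≤ 1 / (N : ℝ) := by
      rw [pi_norm_le_iff_of_nonneg (by positivity)]
      intro e
      rw [Pi.sub_apply, Real.norm_eq_abs]
      unfold Pool.Agent.R972.OP.lp mv
      rw [Equiv.swap_apply_def, ← sub_div, abs_div, abs_of_pos hN']
      apply div_le_div_of_nonneg_right _ hN'.le
      split_ifs with h3 h4
      · rw [h3]
        push_cast
        simp
      · rw [h4]
        push_cast
        simp
      · simp
    have h3 : ‖f (lp N (mv (g a) (g a + 1) g)) - f (lp N g)‖ ≤ L * (1 / (N : ℝ)) :=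
      h1.trans (mul_le_mul_of_nonneg_left h2 hL0)
    rw [Real.norm_eq_abs] at h3
    have h4 : (f (lp N (mv (g a) (g a + 1) g)) - f (lp N g)) ^ 2 ≤ (L * (1 / (N : ℝ))) ^ 2 := by
      rw [← sq_abs]
      exact pow_le_pow_left₀ (abs_nonneg _) h3 2
    have h5 : ch N (g a) * (L * (1 / (N : ℝ))) ^ 2 = ch N (g a) / (N : ℝ) ^ 2 * L ^ 2 := by
      field_simp
    calc ch N (g a) * (f (lp N (mv (g a) (g a + 1) g)) - f (lp N g)) ^ 2
        ≤ ch N (g a) * (L * (1 / (N : ℝ))) ^ 2 := mul_le_mul_of_nonneg_left h4 (ch_nonneg N _)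
      _ = ch N (g a) / (N : ℝ) ^ 2 * L ^ 2 := h5
      _ ≤ 1 / 4 * L ^ 2 := mul_le_mul_of_nonneg_right (ch_le hN (hg a)) (sq_nonneg _)
      _ = L ^ 2 / 4 := by ring

end Pool.Agent.R650.OP
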